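import Pool.Agent.ZPT.Defs

/-!
Squad ZPT (MP_6e1a06_nt): statements with complete proofs in the docstrings.
THEOREM.  `S = V P` an irreducible curve in `Y(1)^n` over the algebraic numbers whose closure in
`(P^1)^n` has no point with two infinite coordinates.  (1) For every prime `p ≥ 5` and embedding
`σ` of the algebraic numbers into `ℂ_p` there is `C` such that for all algebraic vectors `c` with
`|σ(c_i)| > C` for all `i`: if no two coordinates of `S + c` are identically isogenous, then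
`S + c` has only finitely many strongly atypical points.  (2) For `p ≥ p₀(S)` it is enough that
`|σ(c_i)| > 1` for all `i` but one.  (3) Rational vectors `c` of density one are covered.
-/

set_option autoImplicit false

namespace Pool.Agent.ZPT

open Polynomial
open scoped MatrixGroups

noncomputable section

/-! ### Block A: the complex side -/

/-- JE.  Mathlib: `tsum_eisSummand_eq_riemannZeta_mul_eisensteinSeries` gives
`Σ' v, eisSummand k v z = ζ(k) * eisensteinSeries 0 k z = 2 ζ(k) E_k(z)` (see the proof of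
`EisensteinSeries.q_expansion_riemannZeta`), move the sum from `Fin 2 → ℤ` to `ℤ × ℤ`.  With
`ζ(4) = π^4/90`, `ζ(6) = π^6/945`: `60 Σ' = (4 π^4/3) E₄`, `140 Σ' = (8 π^6/27) E₆`, so
`J = 1728 E₄^3/(E₄^3 - E₆^2) = E₄^3/Δ` by `ModularForm.discriminant_eq_E₄_cube_sub_E₆_sq`. -/
def JEStmt : Prop := ∀ z : UpperHalfPlane,
  J (z : ℂ) = (ModularForm.E₄ z) ^ 3 / ModularForm.discriminant z

/-- JI.  `J` is invariant under `SL(2, ℤ)`: from JE and the transformation of `E₄` (weight 4) and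
`Δ` (weight 12).  Uses JE. -/
def JIStmt : Prop := ∀ (g : SL(2, ℤ)) (z : UpperHalfPlane), J ((g • z : UpperHalfPlane) : ℂ) = J z

/-- JS.  `J` is surjective.  Uses JE.  PROOF.  If `J ≠ x` on the upper half plane then
`D = E₄^3 - x Δ` has no zero there (JE), so `g = Δ/D` is holomorphic, invariant of weight 0, and
`g → 0` at `i∞` (`Δ → 0`, `E₄ → 1`).  So `g` is a `ModularForm 𝒮ℒ 0`, hence constant
(`levelOne_weight_zero_const`), the constant is the limit 0, but `Δ ≠ 0`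
(`ModularForm.discriminant_ne_zero`). -/
def JSStmt : Prop := ∀ x : ℂ, ∃ τ : ℂ, 0 < τ.im ∧ J τ = x

/-- HF.  Hermite form.  PROOF.  `α = gcd(a, c) > 0`, `a = p α`, `c = r α`, choose `q₀, s₀` with
`p s₀ - q₀ r = 1`; `δ = p d - r b` satisfies `α δ = m`, so `δ = m/α > 0`; `β₀ = s₀ b - q₀ d =
β + t δ` with `0 ≤ β < δ`; take `q = q₀ + t p`, `s = s₀ + t r`, `x = (α, β)`. -/
def HFStmt : Prop := ∀ m : ℕ, 1 ≤ m → ∀ a b c d : ℤ, a * d - b * c = m →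
  ∃ p q r s : ℤ, p * s - q * r = 1 ∧ ∃ x ∈ idx m,
    a = p * (x.1 : ℤ) ∧ b = p * (x.2 : ℤ) + q * ((m / x.1 : ℕ) : ℤ) ∧
    c = r * (x.1 : ℤ) ∧ d = r * (x.2 : ℤ) + s * ((m / x.1 : ℕ) : ℤ)

/-- HU.  Uniqueness of the Hermite form.  PROOF.  `y.1 > 0` gives `r = 0`, `p s = 1`, `x.1 > 0`
gives `p = s = 1`, then `x.2 = y.2 + q δ` with both in `[0, δ)` gives `q = 0`. -/
def HUStmt : Prop := ∀ m : ℕ, 1 ≤ m → ∀ x ∈ idx m, ∀ y ∈ idx m, ∀ p q r s : ℤ, p * s - q * r = 1 →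
  (x.1 : ℤ) = p * (y.1 : ℤ) → (x.2 : ℤ) = p * (y.2 : ℤ) + q * ((m / y.1 : ℕ) : ℤ) →
  0 = r * (y.1 : ℤ) → ((m / x.1 : ℕ) : ℤ) = r * (y.2 : ℤ) + s * ((m / y.1 : ℕ) : ℤ) → x = y

/-- HI.  The Hecke power sum is `SL(2, ℤ)` invariant.  Uses JI, HF, HU.  PROOF.  For `x ∈ idx m`
the matrix `(x.1 x.2; 0 m/x.1) g` has determinant `m`, by HF it is `h (α β; 0 δ)` with
`y = (α, β) ∈ idx m`, so `J (hpt m x (g z)) = J (h (hpt m y z)) = J (hpt m y z)` by JI.  The map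
`x ↦ y` is injective by HU (cancel `g`), hence a bijection of the finite set `idx m`. -/
def HIStmt : Prop := ∀ m : ℕ, 1 ≤ m → ∀ (k : ℕ) (g : SL(2, ℤ)) (z : UpperHalfPlane),
  ∑ x ∈ idx m, J (hpt m x ((g • z : UpperHalfPlane) : ℂ)) ^ k = ∑ x ∈ idx m, J (hpt m x (z : ℂ)) ^ k

/-- MF.  Forms of weight `12 M` are `Δ^M R(J)`.  Uses JE.  PROOF.  Induction on `M`.  `M = 0`:
`levelOne_weight_zero_const`.  Step: `F - c E₄^(3(M+1))`, `c` the constant coefficient, is a cusp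
form (`E_qExpansion_coeff_zero`), so it is `Δ` times a form of weight `12 M`
(`CuspForm.discriminantEquiv`), and `E₄^(3(M+1)) = Δ^(M+1) J^(M+1)` by JE. -/
def MFStmt : Prop := ∀ (M : ℕ) (F : ModularForm 𝒮ℒ (12 * (M : ℤ))), ∃ R : ℂ[X], R.natDegree ≤ M ∧
  ∀ z : UpperHalfPlane, F z = ModularForm.discriminant z ^ M * R.eval (J z)

/-- MP.  `Δ^(k m) * Σ J((a z + b)/d)^k` is a modular form of weight `12 k m`.  Uses JE, HI.
PROOF.  Invariance: HI.  Holomorphic: `J ∘ hpt` is `E₄^3/Δ` composed with the map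
`z ↦ (a z + b)/d` of the upper half plane.  Bounded at `i∞`: `|J(w)| ≤ C exp(2 π Im w)` for large
`Im w` (`E₄` is bounded, `exp_isBigO_discriminant`), `Im hpt = (a/d) Im z`, `a/d ≤ m`, and
`|Δ(z)| ≤ C exp(-2 π Im z)`. -/
def MPStmt : Prop := ∀ m : ℕ, 1 ≤ m → ∀ k : ℕ, ∃ F : ModularForm 𝒮ℒ (12 * ((k * m : ℕ) : ℤ)),
  ∀ z : UpperHalfPlane,
    F z = ModularForm.discriminant z ^ (k * m) * ∑ x ∈ idx m, J (hpt m x (z : ℂ)) ^ k

/-- MC.  Uses MF, MP.  Divide by `Δ^(k m) ≠ 0`. -/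
def MCStmt : Prop := ∀ m : ℕ, 1 ≤ m → ∀ k : ℕ, ∃ R : ℂ[X], R.natDegree ≤ k * m ∧
  ∀ z : UpperHalfPlane, ∑ x ∈ idx m, J (hpt m x (z : ℂ)) ^ k = R.eval (J z)

/-- IC.  A complex isogeny gives a root of a modular polynomial.  Uses JI, HF.  PROOF.
`m = a d - b c > 0`; by HF the matrix is `h (α β; 0 δ)`, so `y = J(h (hpt m x τ)) = J(hpt m x τ)`
by JI, and the product in PsiC contains the factor 0. -/
def ICStmt : Prop := ∀ Psi : ℕ → ℚ[X][X], PsiC Psi → ∀ x y : ℂ, Isog x y →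
  ∃ m : ℕ, 1 ≤ m ∧ ev2 (Psi m) x y = 0

/-- IB.  Converse.  Uses JS.  PROOF.  `x = J τ` by JS; the product in PsiC vanishes, so
`y = J (hpt m w τ)` for some `w ∈ idx m`; matrix `(w.1 w.2; 0 m/w.1)`, determinant `m > 0`. -/
def IBStmt : Prop := ∀ Psi : ℕ → ℚ[X][X], PsiC Psi → ∀ m : ℕ, 1 ≤ m → ∀ x y : ℂ,
  ev2 (Psi m) x y = 0 → Isog x y

/-- IS.  The relation is symmetric: use `τ' = (a τ + b)/(c τ + d)` and the adjugate matrix
`(d -b; -c a)`. -/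
def ISStmt : Prop := ∀ x y : ℂ, Isog x y → Isog y x

/-! ### Block U: the power series `U = q j` -/

/-- EV.  Evaluation of power series is multiplicative (Cauchy product). -/
def EVStmt : Prop := ∀ (K : Type) [NormedField K] [CompleteSpace K] [CharZero K]
  (A B : PowerSeries ℚ) (q : K),
  Summable (fun n : ℕ => ‖((PowerSeries.coeff n A : ℚ) : K)‖ * ‖q‖ ^ n) →
  Summable (fun n : ℕ => ‖((PowerSeries.coeff n B : ℚ) : K)‖ * ‖q‖ ^ n) →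
  Summable (fun n : ℕ => ‖((PowerSeries.coeff n (A * B) : ℚ) : K)‖ * ‖q‖ ^ n) ∧
  ∑' n : ℕ, ((PowerSeries.coeff n (A * B) : ℚ) : K) * q ^ n =
    (∑' n : ℕ, ((PowerSeries.coeff n A : ℚ) : K) * q ^ n) *
      ∑' n : ℕ, ((PowerSeries.coeff n B : ℚ) : K) * q ^ n

/-- UE.  Series of `E₄^3` and `Δ/q`.  PROOF.  `EisensteinSeries.E_qExpansion_coeff`: `E₄ = 1 + 240 Σ
σ₃(n) q^n`, `E₆ = 1 - 504 Σ σ₅(n) q^n` are integral; `E₄^3` and `(E₄^3 - E₆^2)/1728 = Δ`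
(`discriminant_eq_E₄_cube_sub_E₆_sq`) have `p`-integral coefficients for `p ≥ 5`
(`1728 = 2^6 3^3`); the coefficients of `q^0`, `q^1` in the second are 0 and 1
(720 + 1008 = 1728).  Absolute convergence: `σ_k(n) ≤ n^(k+1)`, products by Cauchy (EV).
May use EV as a hypothesis. -/
def UEStmt : Prop := ∃ A D : PowerSeries ℚ, PowerSeries.coeff 0 A = 1 ∧ PowerSeries.coeff 0 D = 1 ∧
  (∀ p : ℕ, p.Prime → 5 ≤ p → ∀ n, padicNorm p (PowerSeries.coeff n A) ≤ 1) ∧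
  (∀ p : ℕ, p.Prime → 5 ≤ p → ∀ n, padicNorm p (PowerSeries.coeff n D) ≤ 1) ∧
  (∀ ρ : ℝ, 0 ≤ ρ → ρ < 1 → Summable fun n : ℕ => |((PowerSeries.coeff n A : ℚ) : ℝ)| * ρ ^ n) ∧
  (∀ ρ : ℝ, 0 ≤ ρ → ρ < 1 → Summable fun n : ℕ => |((PowerSeries.coeff n D : ℚ) : ℝ)| * ρ ^ n) ∧
  ∀ z : UpperHalfPlane,
    ∑' n : ℕ, ((PowerSeries.coeff n A : ℚ) : ℂ) * ee z ^ n = (ModularForm.E₄ z) ^ 3 ∧
    ee z * ∑' n : ℕ, ((PowerSeries.coeff n D : ℚ) : ℂ) * ee z ^ n = ModularForm.discriminant z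

/-- UI.  The inverse series.  PROOF.  `f(q) = Σ D_n q^n` is holomorphic and nonzero on the unit
disc, so `1/f` is, and its Taylor series converges absolutely there
(`DifferentiableOn.hasFPowerSeriesOnBall`); the product with `D` is `1`, so (uniqueness of Taylor
coefficients) it is the series `D⁻¹`.  `p`-integrality of `D⁻¹` by induction from
`D * D⁻¹ = 1`, `D_0 = 1`. -/
def UIStmt : Prop := ∀ D : PowerSeries ℚ, PowerSeries.coeff 0 D = 1 →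
  (∀ ρ : ℝ, 0 ≤ ρ → ρ < 1 → Summable fun n : ℕ => |((PowerSeries.coeff n D : ℚ) : ℝ)| * ρ ^ n) →
  (∀ q : ℂ, ‖q‖ < 1 → ∑' n : ℕ, ((PowerSeries.coeff n D : ℚ) : ℂ) * q ^ n ≠ 0) →
  (∀ ρ : ℝ, 0 ≤ ρ → ρ < 1 → Summable fun n : ℕ => |((PowerSeries.coeff n D⁻¹ : ℚ) : ℝ)| * ρ ^ n) ∧
  ∀ p : ℕ, p.Prime → (∀ n, padicNorm p (PowerSeries.coeff n D) ≤ 1) →
    ∀ n, padicNorm p (PowerSeries.coeff n D⁻¹) ≤ 1

/-- UX.  `U = A D⁻¹`.  Uses JE, EV, UE, UI.  (`q ≠ 0`, `‖q‖ < 1` is `ee z` for some `z`, where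
`q Σ D_n q^n = Δ(z) ≠ 0`; at `q = 0` the value is `D_0 = 1`.) -/
def UXStmt : Prop := ∃ U : PowerSeries ℚ, IsU U

/-- UQ.  Two convergent power series that agree on the punctured unit disc are equal. -/
def UQStmt : Prop := ∀ a b : ℕ → ℂ,
  (∀ ρ : ℝ, 0 ≤ ρ → ρ < 1 → Summable fun n : ℕ => ‖a n‖ * ρ ^ n) →
  (∀ ρ : ℝ, 0 ≤ ρ → ρ < 1 → Summable fun n : ℕ => ‖b n‖ * ρ ^ n) →
  (∀ q : ℂ, q ≠ 0 → ‖q‖ < 1 → ∑' n : ℕ, a n * q ^ n = ∑' n : ℕ, b n * q ^ n) → a = b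

/-! ### Block H: Hecke sums in any complete field, modular polynomials -/

/-- HS.  Uses EV (powers of `U`).  PROOF.  For `x = (a, b) ∈ idx m`, `d = m/a`,
`w = z^(a b) r^(a²)`: `jv U w ^ k = Σ_n u_n w^(n-k)` with `u_n = coeff n (U^k)`; sum over `b < d`:
`z^a` is a primitive `d`-th root of unity, so `Σ_b z^(a b (n-k)) = d` if `d ∣ n - k`, else `0`;
if `n - k = d n'` then `r^(a² (n-k)) = r^(m a n') = (r^m)^(a n')`.  Multiply by `(r^m)^(k m)`; the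
exponent is `N = a n' + k m ≥ 0` since `d n' ≥ -k` and `a/d ≤ m`; `n = k + d (N - k m)/a ≤ k + m N`,
so the finite sum in `hser` contains all `n` with this `N`.  Everything converges absolutely. -/
def HSStmt : Prop := ∀ (U : PowerSeries ℚ) (K : Type) [NormedField K] [CompleteSpace K] [CharZero K],
  (∀ ρ : ℝ, 0 ≤ ρ → ρ < 1 →
    Summable fun n : ℕ => ‖((PowerSeries.coeff n U : ℚ) : K)‖ * ρ ^ n) →
  ∀ m k : ℕ, 1 ≤ m → ∀ r z : K, 0 < ‖r‖ → ‖r‖ < 1 → IsPrimitiveRoot z m →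
    Summable (fun N : ℕ => ‖((PowerSeries.coeff N (hser U m k) : ℚ) : K)‖ * ‖r ^ m‖ ^ N) ∧
    ∑' N : ℕ, ((PowerSeries.coeff N (hser U m k) : ℚ) : K) * (r ^ m) ^ N =
      (r ^ m) ^ (k * m) * ∑ x ∈ idx m, jv U (z ^ (x.1 * x.2) * r ^ (x.1 ^ 2)) ^ k

/-- HC.  Complex parameters: `ee`.  For `q ≠ 0`, `‖q‖ < 1` there is `τ` with `ee τ = q`; with
`r = ee (τ/m)`, `z = ee (1/m)`: `r^m = q`, `z` is a primitive `m`-th root of unity, and
`z^(a b) r^(a²) = ee ((a τ + b)/d)` for `(a, b) ∈ idx m` (`a/m = 1/d`). -/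
def HCStmt : Prop := ∀ m : ℕ, 1 ≤ m → ∀ τ : ℂ, 0 < τ.im →
  ee (τ / m) ^ m = ee τ ∧ 0 < ‖ee (τ / m)‖ ∧ ‖ee (τ / m)‖ < 1 ∧ IsPrimitiveRoot (ee (1 / m)) m ∧
  (∀ x ∈ idx m, 0 < (hpt m x τ).im ∧
    ee (1 / m) ^ (x.1 * x.2) * ee (τ / m) ^ (x.1 ^ 2) = ee (hpt m x τ))

/-- SQ.  Surjectivity of `ee` onto the punctured disc. -/
def SQStmt : Prop := ∀ q : ℂ, q ≠ 0 → ‖q‖ < 1 → ∃ τ : ℂ, 0 < τ.im ∧ ee τ = q

/-- MS.  Formal identity with rational coefficients.  Uses EV, UQ, HS, HC, SQ, MC.  PROOF.  By HS,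
HC and MC, for `q = ee τ`: `Σ hser_N q^N = q^(k m) R(J τ) = Σ_{i ≤ k m} R_i U(q)^i q^(k m - i)`
(`J τ = U(q)/q` by `IsU.jJ`), so by UQ `(hser_N : ℂ) = Σ_i R_i coeff N (U^i X^(k m - i))`.  Apply
a `ℚ`-linear map `λ : ℂ → ℚ` with `λ 1 = 1` and replace `R_i` by `λ R_i`. -/
def MSStmt : Prop := ∀ U : PowerSeries ℚ, IsU U → ∀ m k : ℕ, 1 ≤ m → ∃ R : ℚ[X],
  R.natDegree ≤ k * m ∧
  hser U m k = ∑ i ∈ Finset.range (k * m + 1),
    PowerSeries.C (R.coeff i) * U ^ i * PowerSeries.X ^ (k * m - i)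

/-- MK.  Evaluation of MS in `K`.  Uses EV, HS, MS.  (Divide HS by `(r^m)^(k m) ≠ 0`.) -/
def MKStmt : Prop := ∀ U : PowerSeries ℚ, IsU U → ∀ m k : ℕ, 1 ≤ m → ∃ R : ℚ[X],
  ∀ (K : Type) [NormedField K] [CompleteSpace K] [CharZero K],
  (∀ ρ : ℝ, 0 ≤ ρ → ρ < 1 →
    Summable fun n : ℕ => ‖((PowerSeries.coeff n U : ℚ) : K)‖ * ρ ^ n) →
  ∀ r z : K, 0 < ‖r‖ → ‖r‖ < 1 → IsPrimitiveRoot z m →
    ∑ x ∈ idx m, jv U (z ^ (x.1 * x.2) * r ^ (x.1 ^ 2)) ^ k =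
      R.eval₂ (Rat.castHom K) (jv U (r ^ m))

/-- NW.  Newton: the monic polynomial with given power sums.  Mathlib:
`MvPolynomial.mul_esymm_eq_sum`; define `E_0 = 1`,
`k E_k = (-1)^(k+1) Σ_{i < k} (-1)^i E_i R_(k-i)` in `ℚ[X]` and
`F = Σ_k (-1)^k E_k Y^(N-k)`. -/
def NWStmt : Prop := ∀ (N : ℕ) (R : ℕ → ℚ[X]), ∃ F : ℚ[X][X],
  ∀ (K : Type) [Field K] [CharZero K] (x : K) (s : Finset (ℕ × ℕ)) (y : ℕ × ℕ → K), s.card = N →
    (∀ k : ℕ, 1 ≤ k → k ≤ N → ∑ i ∈ s, y i ^ k = (R k).eval₂ (Rat.castHom K) x) →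
    ∀ Y : K, ev2 F x Y = ∏ i ∈ s, (Y - y i)

/-- PS.  Modular polynomials.  Uses UX, HC, MK, NW.  In `ℂ` use HC and `IsU.sm`, `IsU.jJ`; in `K`
with `Ext p K` the coefficients of `U` have norm `≤ 1` (`IsU.pint`), so the summability holds. -/
def PSStmt : Prop := ∃ (U : PowerSeries ℚ) (Psi : ℕ → ℚ[X][X]), IsU U ∧ PsiC Psi ∧
  ∀ (p : ℕ), p.Prime → 5 ≤ p → ∀ (K : Type) [NormedField K] [CharZero K] [IsUltrametricDist K]
    [CompleteSpace K], Ext p K → PsiK U Psi K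

/-! ### Block K: Tate parameters over a complete algebraically closed `p`-adic field -/

/-- KX.  The norm of `ℂ_[p]` on rational numbers (`PadicComplex.norm_extends'`,
`padicNormE.eq_padicNorm`). -/
def KXStmt : Prop := ∀ (p : ℕ) [Fact p.Prime], Ext p ℂ_[p]

/-- TB.  `U(q) = 1 + O(q)`. -/
def TBStmt : Prop := ∀ U : PowerSeries ℚ, IsU U → ∀ p : ℕ, p.Prime → 5 ≤ p →
  ∀ (K : Type) [NormedField K] [CharZero K] [IsUltrametricDist K] [CompleteSpace K], Ext p K →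
  ∀ q : K, 0 < ‖q‖ → ‖q‖ < 1 → ‖jv U q * q - 1‖ ≤ ‖q‖ ∧ ‖jv U q‖ = ‖q‖⁻¹

/-- TI.  Injectivity.  PROOF.  `0 = U(q) q' - U(q') q = (q' - q) + Σ_{n ≥ 2} u_n q q' (q^(n-1) -
q'^(n-1))` and the sum has norm `≤ ‖q q'‖ ‖q - q'‖ < ‖q - q'‖` unless `q = q'`. -/
def TIStmt : Prop := ∀ U : PowerSeries ℚ, IsU U → ∀ p : ℕ, p.Prime → 5 ≤ p →
  ∀ (K : Type) [NormedField K] [CharZero K] [IsUltrametricDist K] [CompleteSpace K], Ext p K →
  ∀ q q' : K, 0 < ‖q‖ → ‖q‖ < 1 → 0 < ‖q'‖ → ‖q'‖ < 1 → jv U q = jv U q' → q = q'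

/-- TS.  Surjectivity.  PROOF.  `q ↦ U(q)/x` maps the closed ball of radius `1/‖x‖` into itself and
is a contraction with factor `1/‖x‖` (`‖U(q) - U(q')‖ ≤ ‖q - q'‖`); `‖U(q)‖ = 1`, so the fixed
point has norm `1/‖x‖ > 0`. -/
def TSStmt : Prop := ∀ U : PowerSeries ℚ, IsU U → ∀ p : ℕ, p.Prime → 5 ≤ p →
  ∀ (K : Type) [NormedField K] [CharZero K] [IsUltrametricDist K] [CompleteSpace K], Ext p K →
  ∀ x : K, 1 < ‖x‖ → ∃ q : K, 0 < ‖q‖ ∧ ‖q‖ < 1 ∧ jv U q = x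

/-- TP.  Roots of `Psi m (x, Y)`.  PROOF.  `K` algebraically closed of characteristic 0: take `r`
with `r^m = q` and a primitive `m`-th root of unity `z`; the product in PsiK vanishes, so
`y = jv U q'`, `q' = z^(a b) r^(a²)`, `‖z‖ = 1`, `q'^m = r^(a² m) = q^(a²)`. -/
def TPStmt : Prop := ∀ (U : PowerSeries ℚ) (Psi : ℕ → ℚ[X][X]),
  ∀ (K : Type) [NormedField K] [CharZero K] [IsAlgClosed K], PsiK U Psi K →
  ∀ m : ℕ, 1 ≤ m → ∀ q y : K, 0 < ‖q‖ → ‖q‖ < 1 → ev2 (Psi m) (jv U q) y = 0 →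
    ∃ q' : K, 0 < ‖q'‖ ∧ ‖q'‖ < 1 ∧ jv U q' = y ∧ ∃ a : ℕ, 1 ≤ a ∧ q' ^ m = q ^ (a ^ 2)

/-- TQ.  Bounded level.  PROOF.  `m = s t`, `r^(s t) = q`, `z` a primitive `s t`-th root of unity.
`(r^(s²))^t = q^s = q'^t`, so `q' = (z^s)^b r^(s²)` for some `b < t`; `(s, b) ∈ idx (s t)`, so the
product in PsiK contains the factor 0. -/
def TQStmt : Prop := ∀ (U : PowerSeries ℚ) (Psi : ℕ → ℚ[X][X]),
  ∀ (K : Type) [NormedField K] [CharZero K] [IsAlgClosed K], PsiK U Psi K →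
  ∀ s t : ℕ, 1 ≤ s → 1 ≤ t → ∀ q q' : K, 0 < ‖q‖ → ‖q‖ < 1 → 0 < ‖q'‖ → ‖q'‖ < 1 →
    q ^ s = q' ^ t → ev2 (Psi (s * t)) (jv U q) (jv U q') = 0

/-- RU.  A root of unity congruent to 1 modulo `p ≥ 3` is 1.  PROOF.  Otherwise a power `w` of it
has prime order `l` and still `0 < ‖w - 1‖ ≤ 1/p`; with `y = w - 1`:
`0 = (1 + y)^l - 1 = l y + Σ_{2 ≤ i ≤ l} C(l, i) y^i`.  If `l ≠ p`: `‖l y‖ = ‖y‖ > ‖y‖²`.  If
`l = p`: `‖p y‖ = ‖y‖/p`, the terms `2 ≤ i < p` are `≤ ‖y‖²/p`, the last is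
`‖y‖^p ≤ ‖y‖ p^(-(p-1)) < ‖y‖/p`. -/
def RUStmt : Prop := ∀ p : ℕ, p.Prime → 3 ≤ p →
  ∀ (K : Type) [NormedField K] [CharZero K] [IsUltrametricDist K], Ext p K →
  ∀ (w : K) (M : ℕ), 1 ≤ M → w ^ M = 1 → ‖w - 1‖ ≤ 1 / (p : ℝ) → w = 1

/-- RV.  Roots of unity in a smaller disc have bounded order.  Uses RU.  PROOF.  If `w = 1 + y`,
`‖y‖ = t < 1`, then `w^p - 1 = Σ C(p, i) y^i` has norm `≤ max (t/p) (t^p)`.  So
`‖w^(p^R) - 1‖ ≤ max (1/p) (ρ^(p^R))` by induction (`R ≥ 1`), choose `R` with `ρ^(p^R) ≤ 1/p`; RU. -/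
def RVStmt : Prop := ∀ p : ℕ, p.Prime → 3 ≤ p →
  ∀ (K : Type) [NormedField K] [CharZero K] [IsUltrametricDist K], Ext p K →
  ∀ ρ : ℝ, ρ < 1 → ∃ R : ℕ, ∀ (w : K) (M : ℕ), 1 ≤ M → w ^ M = 1 → ‖w - 1‖ ≤ ρ → w ^ (p ^ R) = 1

/-- FO.  Residues of algebraic units have finite order.  PROOF.  `u` is a root of a primitive
polynomial `g` with integer coefficients; `(ZMod p)[X]/(g mod p)` is a finite ring (`g mod p ≠ 0`),
so two powers `X^i`, `X^j`, `i < j`, agree in it: `X^j - X^i = g h + p k` with integer polynomials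
`h`, `k`; evaluate at `ι u`: `‖u^j - u^i‖ ≤ 1/p < 1`, so `‖u^(j-i) - 1‖ < 1`. -/
def FOStmt : Prop := ∀ p : ℕ, p.Prime →
  ∀ (K : Type) [NormedField K] [CharZero K] [IsUltrametricDist K], Ext p K →
  ∀ (ι : Qb →+* K) (u : Qb), ‖ι u‖ = 1 → ∃ e : ℕ, 1 ≤ e ∧ ‖ι u ^ e - 1‖ < 1

/-- NN.  Near coordinates: bounded level.  Uses TB, RV, FO.  PROOF.  If no `A, B ≥ 1` have
`‖ι c‖^A = ‖ι c'‖^B`, take `s = t = 1` (nothing to prove, see below).  Otherwise fix such `(m, m')`.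
`‖f + ι c‖ = ‖ι c‖`, so `‖q‖ = 1/‖ι c‖`; `q (f + ι c) ∈ 1 + B(1/‖ι c‖)` (TB) and
`(f + ι c)/ι c ∈ 1 + B(C/‖ι c‖)`, so `q ι c ∈ 1 + B(ρ)` with `ρ = max (C/‖ι c‖) (C/‖ι c'‖) < 1`; the
same for `q' ι c'`.  `q^A = q'^B` gives `‖ι c‖^A = ‖ι c'‖^B`, hence `A m' = B m`.  So
`w = q^m / q'^m'` satisfies `w^A = 1`, and `w = ι u * v` with `u = c'^m'/c^m`, `‖ι u‖ = 1`,
`v ∈ 1 + B(ρ)`.  FO: `‖ι u ^ e - 1‖ < 1`, so `‖w^e - 1‖ ≤ ρ' < 1` with `ρ'` depending only on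
`c, c', C`; RV: `w^(e p^R) = 1`.  Take `s = m e p^R`, `t = m' e p^R`. -/
def NNStmt : Prop := ∀ U : PowerSeries ℚ, IsU U → ∀ p : ℕ, p.Prime → 5 ≤ p →
  ∀ (K : Type) [NormedField K] [CharZero K] [IsUltrametricDist K] [CompleteSpace K], Ext p K →
  ∀ (ι : Qb →+* K) (C : ℝ), 1 ≤ C → ∀ c c' : Qb, C < ‖ι c‖ → C < ‖ι c'‖ →
  ∃ s t : ℕ, 1 ≤ s ∧ 1 ≤ t ∧ ∀ f f' q q' : K, ‖f‖ ≤ C → ‖f'‖ ≤ C →
    0 < ‖q‖ → ‖q‖ < 1 → 0 < ‖q'‖ → ‖q'‖ < 1 → jv U q = f + ι c → jv U q' = f' + ι c' →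
    (∃ A B : ℕ, 1 ≤ A ∧ 1 ≤ B ∧ q ^ A = q' ^ B) → q ^ s = q' ^ t

/-- KT.  `KI` is symmetric and transitive.  Uses TI (uniqueness of the parameter). -/
def KTStmt : Prop := ∀ U : PowerSeries ℚ, IsU U → ∀ p : ℕ, p.Prime → 5 ≤ p →
  ∀ (K : Type) [NormedField K] [CharZero K] [IsUltrametricDist K] [CompleteSpace K], Ext p K →
  (∀ x y : K, KI U x y → KI U y x) ∧ ∀ x y w : K, KI U x y → KI U y w → KI U x w

/-- EH.  `ev2` commutes with field homomorphisms. -/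
def EHStmt : Prop := ∀ (K L : Type) [Field K] [CharZero K] [Field L] [CharZero L] (φ : K →+* L)
  (F : ℚ[X][X]) (x y : K), φ (ev2 F x y) = ev2 F (φ x) (φ y)

/-- IK.  An isogeny seen in `K`.  Uses IC, EH, TB, TS, TP.  PROOF.  IC: `ev2 (Psi m) x y = 0`, move
it to `K` by `ι` (EH for `Qb → ℂ` and for `ι`); `ι x = jv U q` by TS; TP gives `q'` with
`q'^m = q^(a²)`; `‖ι y‖ = 1/‖q'‖ > 1` by TB. -/
def IKStmt : Prop := ∀ (U : PowerSeries ℚ) (Psi : ℕ → ℚ[X][X]), IsU U → PsiC Psi →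
  ∀ p : ℕ, p.Prime → 5 ≤ p →
  ∀ (K : Type) [NormedField K] [CharZero K] [IsUltrametricDist K] [CompleteSpace K] [IsAlgClosed K],
  Ext p K → PsiK U Psi K → ∀ (ι : Qb →+* K) (x y : Qb), Isog (x : ℂ) (y : ℂ) → 1 < ‖ι x‖ →
    1 < ‖ι y‖ ∧ KI U (ι x) (ι y)

/-- AO.  At most one large coordinate.  PROOF.  If both norms are `> C` the monomial `f_i^a f_j^b`
is strictly larger than all others: for `(u, v) ≠ (a, b)`, `u ≤ a`, `v ≤ b`,
`‖g_uv‖ ‖f_i‖^u ‖f_j‖^v ≤ C max(1/‖f_i‖, 1/‖f_j‖) ‖f_i‖^a ‖f_j‖^b < ‖f_i‖^a ‖f_j‖^b`. -/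
def AOStmt : Prop := ∀ (K : Type) [NormedField K] [IsUltrametricDist K] (n : ℕ)
  (G : MvPolynomial (Fin n) K) (i j : Fin n) (a b : ℕ) (C : ℝ), 1 ≤ C → i ≠ j →
  (∀ m ∈ G.support, m i ≤ a ∧ m j ≤ b ∧ ∀ l : Fin n, l ≠ i → l ≠ j → m l = 0) →
  (∀ m, ‖MvPolynomial.coeff m G‖ ≤ C) →
  MvPolynomial.coeff (Finsupp.single i a + Finsupp.single j b) G = 1 →
  ∀ f : Fin n → K, MvPolynomial.eval f G = 0 → ‖f i‖ ≤ C ∨ ‖f j‖ ≤ C

/-! ### Block C: curves -/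

/-- CF.  PROOF.  `R = ℂ[X]/P` is a Noetherian domain of dimension 1 and `F ≠ 0` in it, so `R/(F)` is
Noetherian of dimension 0, hence Artinian with finitely many maximal ideals; distinct points give
distinct maximal ideals (kernels of evaluation) containing `P` and `F`. -/
def CFStmt : Prop := ∀ (n : ℕ) (P : Ideal (MvPolynomial (Fin n) ℂ)), P.IsPrime →
  ringKrullDim (MvPolynomial (Fin n) ℂ ⧸ P) = 1 → ∀ F : MvPolynomial (Fin n) ℂ, F ∉ P →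
  {x : Fin n → ℂ | x ∈ V P ∧ MvPolynomial.eval x F = 0}.Finite

/-- LA.  Coefficientwise linear functional.  PROOF.  `g = Σ_j h_j f_j`, `f_j ∈ T`; choose a
`Qb`-linear map `λ : ℂ → Qb` with `λ (coeff m₀ g) = 1`; with `h_j = Σ c_(j,m) X^m`,
`λ(g) = Σ λ(c_(j,m)) X^m f_j ∈ Q` because the coefficients of `f_j` are in `Qb`. -/
def LAStmt : Prop := ∀ (n : ℕ) (Q : Ideal (MvPolynomial (Fin n) ℂ)), DefQbar Q → ∀ g ∈ Q,
  ∀ m₀ : Fin n →₀ ℕ, MvPolynomial.coeff m₀ g ≠ 0 → ∃ g' ∈ Q,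
    (∀ m, IsAlgebraic ℚ (MvPolynomial.coeff m g')) ∧ MvPolynomial.coeff m₀ g' = 1 ∧
    g'.support ⊆ g.support

/-- CA.  Isolated points are algebraic.  Uses LA.  PROOF.  `Q = P ⊔ span {F}` is generated by
polynomials with algebraic coefficients and has finitely many zeros; for a coordinate `i` the
polynomial `h(X_i) = Π (X_i - y_i)` over the zeros `y` vanishes on them, by the Nullstellensatz
`h^N ∈ Q`, by LA (with `m₀` the leading exponent of `h^N`) there is `g' ∈ Q` nonzero, with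
algebraic coefficients and only the variable `X_i`; `g'(x_i) = 0`, so `x_i` is algebraic. -/
def CAStmt : Prop := ∀ (n : ℕ) (P : Ideal (MvPolynomial (Fin n) ℂ)), DefQbar P →
  ∀ F : MvPolynomial (Fin n) ℂ, (∀ m, IsAlgebraic ℚ (MvPolynomial.coeff m F)) →
  {x : Fin n → ℂ | x ∈ V P ∧ MvPolynomial.eval x F = 0}.Finite →
  ∀ x : Fin n → ℂ, x ∈ V P → MvPolynomial.eval x F = 0 → ∀ i, IsAlgebraic ℚ (x i)

/-- GI.  Plane equations with algebraic coefficients.  Uses LA (with `m₀` the top exponent; the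
support does not grow, and the exponents in the support are bounded by `degreeOf`). -/
def GIStmt : Prop := ∀ (n : ℕ) (P : Ideal (MvPolynomial (Fin n) ℂ)), DefQbar P → NoDouble P →
  ∀ i j : Fin n, i ≠ j → ∃ G ∈ P, (∀ m, IsAlgebraic ℚ (MvPolynomial.coeff m G)) ∧ ∃ a b : ℕ,
    (∀ m ∈ G.support, m i ≤ a ∧ m j ≤ b ∧ ∀ l : Fin n, l ≠ i → l ≠ j → m l = 0) ∧
    MvPolynomial.coeff (Finsupp.single i a + Finsupp.single j b) G = 1

/-- GR.  Good reduction.  PROOF.  `g` is a root of an integer polynomial with leading coefficient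
`l ≠ 0`; for `p > |l|` one has `‖l‖ = 1` and all coefficients have norm `≤ 1`, so `‖ι g‖ > 1` would
make the leading term strictly dominant. -/
def GRStmt : Prop := ∀ S : Finset ℂ, (∀ g ∈ S, IsAlgebraic ℚ g) → ∃ p₀ : ℕ, ∀ p : ℕ, p.Prime →
  p₀ ≤ p → ∀ (K : Type) [NormedField K] [CharZero K] [IsUltrametricDist K], Ext p K →
  ∀ (ι : Qb →+* K) (g : Qb), (g : ℂ) ∈ S → ‖ι g‖ ≤ 1

/-- PF.  The polynomial `Psi m (X_i + c_i, X_j + c_j)`: value and algebraic coefficients. -/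
def PFStmt : Prop := ∀ (n : ℕ) (F : ℚ[X][X]) (i j : Fin n) (c c' : Qb),
  ∃ G : MvPolynomial (Fin n) ℂ, (∀ m, IsAlgebraic ℚ (MvPolynomial.coeff m G)) ∧
    ∀ x : Fin n → ℂ, MvPolynomial.eval x G = ev2 F (x i + (c : ℂ)) (x j + (c' : ℂ))

/-- At most one coordinate of the algebraic points of `V P` has norm `> C` in `K`. -/
def AtMost {n : ℕ} (P : Ideal (MvPolynomial (Fin n) ℂ)) {K : Type} [NormedField K] (ι : Qb →+* K)
    (C : ℝ) : Prop :=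
  ∀ x : Fin n → Qb, (fun i => (x i : ℂ)) ∈ V P → ∀ i j : Fin n, i ≠ j → ‖ι (x i)‖ ≤ C ∨ ‖ι (x j)‖ ≤ C

/-- AM.  Uses GI, GR, AO.  PROOF.  Take the finitely many `G` of GI for all `i ≠ j`; map `G` to `K`
by `ι` (its coefficients are algebraic, its value at `x` is 0) and apply AO to `f = ι x` with `C` the
maximum of 1 and the norms of all coefficients; for `p ≥ p₀` of GR this maximum is 1. -/
def AMStmt : Prop := ∀ (n : ℕ) (P : Ideal (MvPolynomial (Fin n) ℂ)), DefQbar P → NoDouble P →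
  (∀ (K : Type) [NormedField K] [IsUltrametricDist K] (ι : Qb →+* K), ∃ C : ℝ, 1 ≤ C ∧ AtMost P ι C) ∧
  ∃ p₀ : ℕ, ∀ p : ℕ, p.Prime → p₀ ≤ p →
    ∀ (K : Type) [NormedField K] [CharZero K] [IsUltrametricDist K], Ext p K → ∀ ι : Qb →+* K,
    AtMost P ι 1

/-- The condition on the translation vector: all coordinates are larger than `C`, or `C = 1` and
all but one are. -/
def Large {n : ℕ} {K : Type} [NormedField K] (ι : Qb →+* K) (C : ℝ) (c : Fin n → Qb) : Prop :=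
  (∀ i, C < ‖ι (c i)‖) ∨ (C = 1 ∧ ∃ β : Fin n, ∀ i, i ≠ β → 1 < ‖ι (c i)‖)

/-- LOC.  The local argument.  Uses IS, KT, IK.  PROOF.  Call `i` near if `‖ι (x i)‖ ≤ C`, big if
`C < ‖ι (c i)‖`.  All indices but at most one `i₀` are near, all but at most one `β` are big; a near
and big `i` has `‖ι (x i + c i)‖ = ‖ι (c i)‖ > 1`; if `β` is near and not big then `C = 1` and
`‖ι (x β + c β)‖ ≤ 1`.  By IK and IS two isogenous coordinates have both norm `> 1` or both `≤ 1`,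
and in the first case they are related by `KI`.  An atypical configuration contains two near indices
`u ≠ v`, isogenous or joined by a chain through `i₀`: chain `i, j, k` with `i₀ ∉ {i, k}`: `u, v = i, k`;
`i₀ = i`: `j, k`; `i₀ = k`: `i, j`; two pairs: the pair avoiding `i₀`.  At least one of `u, v` is not
`β`, so it is big and has norm `> 1`, hence all members of the chain have norm `> 1`, hence `u, v` are
both big, and `KI` holds (KT for the chain). -/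
def LOCStmt : Prop := ∀ (U : PowerSeries ℚ) (Psi : ℕ → ℚ[X][X]), IsU U → PsiC Psi →
  ∀ p : ℕ, p.Prime → 5 ≤ p →
  ∀ (K : Type) [NormedField K] [CharZero K] [IsUltrametricDist K] [CompleteSpace K] [IsAlgClosed K],
  Ext p K → PsiK U Psi K → ∀ (ι : Qb →+* K) (C : ℝ), 1 ≤ C →
  ∀ (n : ℕ) (x c : Fin n → Qb),
  (∀ i j : Fin n, i ≠ j → ‖ι (x i)‖ ≤ C ∨ ‖ι (x j)‖ ≤ C) → Large ι C c →
  Atyp (fun i => (x i : ℂ) + (c i : ℂ)) →
  ∃ u v : Fin n, u ≠ v ∧ C < ‖ι (c u)‖ ∧ C < ‖ι (c v)‖ ∧ ‖ι (x u)‖ ≤ C ∧ ‖ι (x v)‖ ≤ C ∧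
    KI U (ι (x u) + ι (c u)) (ι (x v) + ι (c v))

/-- F1.  Finiteness.  Uses PS, IC, IB, CF, CA, PF, TQ, NN, EH, LOC.  PROOF.  Let `x ∈ V P` be such
that `x + c` is atypical; some `x i + c i`, `x j + c j`, `i ≠ j`, are isogenous, so (IC) `Psi m`
vanishes there; the polynomial `G` of PF is not in `P` (otherwise IB makes the two coordinates
identically isogenous), so by CF and CA the coordinates of `x` are algebraic.  LOC gives `u ≠ v`, NN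
gives the fixed level `s t` for the pair `(u, v)` (if both are big) and TQ gives
`ev2 (Psi (s t)) = 0` in `K`, hence in `ℂ` (EH, `ι` injective).  So `x` is a zero of one of the
finitely many polynomials of PF for the pairs `(u, v)` of big indices and these levels; none is in
`P` by IB; CF. -/
def F1Stmt : Prop := ∀ (n : ℕ) (P : Ideal (MvPolynomial (Fin n) ℂ)), P.IsPrime →
  ringKrullDim (MvPolynomial (Fin n) ℂ ⧸ P) = 1 → DefQbar P →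
  ∀ p : ℕ, p.Prime → 5 ≤ p →
  ∀ (K : Type) [NormedField K] [CharZero K] [IsUltrametricDist K] [CompleteSpace K] [IsAlgClosed K],
  Ext p K → ∀ (ι : Qb →+* K) (C : ℝ), 1 ≤ C → AtMost P ι C → ∀ c : Fin n → Qb, Large ι C c →
  (∀ i j : Fin n, i ≠ j → ¬ ∀ x ∈ V P, Isog (x i + (c i : ℂ)) (x j + (c j : ℂ))) →
  {x : Fin n → ℂ | x ∈ V P ∧ Atyp (fun i => x i + (c i : ℂ))}.Finite

/-! ### Block D: density -/

/-- The box: `|a_i| ≤ H`, `1 ≤ N ≤ H`. -/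
def box (n H : ℕ) : Finset ((Fin n → ℤ) × ℤ) :=
  (Fintype.piFinset fun _ : Fin n => Finset.Icc (-(H : ℤ)) H) ×ˢ Finset.Icc (1 : ℤ) H

open Classical in
/-- DN.  Density.  PROOF.  For a finite set `T` of primes `≥ p₀` the condition `no p ∈ T with
p ∣ N and p ∤ a_i for all i` depends on `(a, N)` modulo `Q = Π p`; by the Chinese remainder theorem
(`ZMod.prodEquivPi`) the number of residues is `Π_{p ∈ T} (p^(n+1) - (p-1)^n)`, each residue class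
has at most `((2H+1)/Q + 1)^n (H/Q + 1)` points in the box, so the limsup of the proportion is at
most `2^n Π (1 - (1/p)(1 - 1/p)^n) → 0` as `T` grows, since `Σ 1/p = ∞`
(`Nat.Primes.not_summable_one_div`). -/
def DNStmt : Prop := ∀ (n p₀ : ℕ) (ε : ℝ), 0 < ε → ∃ H₀ : ℕ, ∀ H : ℕ, H₀ ≤ H →
  (((box n H).filter fun w => ¬ ∃ p : ℕ, p.Prime ∧ p₀ ≤ p ∧ (p : ℤ) ∣ w.2 ∧
    ∀ i, ¬ (p : ℤ) ∣ w.1 i).card : ℝ) ≤ ε * (H : ℝ) ^ (n + 1)

/-- The condition of Q1 for the translate `V P + c`: no two coordinates identically isogenous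
implies finitely many strongly atypical points. -/
def Q1For {n : ℕ} (P : Ideal (MvPolynomial (Fin n) ℂ)) (c : Fin n → ℂ) : Prop :=
  (∀ i j : Fin n, i ≠ j → ¬ ∀ x ∈ V P, Isog (x i + c i) (x j + c j)) →
  {x : Fin n → ℂ | x ∈ V P ∧ Atyp (fun i => x i + c i)}.Finite

open Classical in
/-- FIN.  The final theorem.  Uses KX, AM, F1, DN.  (There is an embedding `Qb → ℂ_[p]`,
`IsAlgClosed.lift`; for `p ∣ N`, `p ∤ a_i` the rational `a_i/N` has `p`-adic norm `> 1`; rational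
numbers are in `Qb`.) -/
def FINStmt : Prop := ∀ (n : ℕ) (P : Ideal (MvPolynomial (Fin n) ℂ)), P.IsPrime →
  ringKrullDim (MvPolynomial (Fin n) ℂ ⧸ P) = 1 → DefQbar P → NoDouble P →
  (∀ (p : ℕ) [Fact p.Prime], 5 ≤ p → ∀ σ : Qb →+* ℂ_[p], ∃ C : ℝ, ∀ c : Fin n → Qb,
    (∀ i, C < ‖σ (c i)‖) → Q1For P (fun i => (c i : ℂ))) ∧
  (∃ p₀ : ℕ, ∀ (p : ℕ) [Fact p.Prime], p₀ ≤ p → ∀ (σ : Qb →+* ℂ_[p]) (c : Fin n → Qb),
    (∃ β : Fin n, ∀ i, i ≠ β → 1 < ‖σ (c i)‖) → Q1For P (fun i => (c i : ℂ))) ∧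
  ∀ ε : ℝ, 0 < ε → ∃ H₀ : ℕ, ∀ H : ℕ, H₀ ≤ H →
    (((box n H).filter fun w =>
      ¬ Q1For P (fun i => (w.1 i : ℂ) / (w.2 : ℂ))).card : ℝ) ≤ ε * (H : ℝ) ^ (n + 1)

end

end Pool.Agent.ZPT
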