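import Pool.Agent.ZPT.Stmts

/-!
Squad ZPT (MP_6e1a06_nt), additional row ND: the boundary hypothesis in geometric form.
-/

set_option autoImplicit false

namespace Pool.Agent.ZPT

noncomputable section

/-- No point at infinity of `V P` in `(P^1)^n` has two infinite coordinates: two different
coordinates of a point of `V P` are never both larger than some bound `B`. -/
def BddPairs {n : ℕ} (P : Ideal (MvPolynomial (Fin n) ℂ)) : Prop :=
  ∃ B : ℝ, ∀ x ∈ V P, ∀ i j : Fin n, i ≠ j → ‖x i‖ ≤ B ∨ ‖x j‖ ≤ B

/-- ND.  PROOF.  `A = ℂ[X]/P`, `f`, `g` the classes of `X_i`, `X_j`.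
(0) If `f` is algebraic over `ℂ` it is a constant `κ` and `G = X_i - κ` works (`deg_j G = 0`); the
same for `g`.
(1) Noether normalization (`exists_integral_inj_algHom_of_fg`): `A` is integral over a polynomial
ring, which has one variable because `ringKrullDim A = 1` (integral extensions preserve the
dimension); so `A` is integral over `ℂ[t]`, `f` is algebraic over `ℂ(t)`, and since `f` is
transcendental, `t` is algebraic over `ℂ(f)`: every element of `A` is algebraic over `ℂ[f]`.
(2) Clearing denominators for the generators of `A` there is a nonzero polynomial `s` such that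
`A_s` (`s = s(f)` inverted) is integral, hence finite, over `ℂ[f]_s`, a PID, and torsion free, hence
free.  Let `χ(Z) = Z^b + e_1 Z^(b-1) + .. + e_b` be the characteristic polynomial of multiplication
by `g`; `s^N e_l = r_l(f)` with polynomials `r_l`.
(3) For `u` with `s(u) ≠ 0` the roots of `χ` at `f = u` are values `x_j` of points `x ∈ V P` with
`x_i = u`: a root `z` is an eigenvalue of `g` on `A_s/(f - u)` (base change of the free module), so
`g - z` is not invertible there, is contained in a maximal ideal, and the Nullstellensatz gives the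
point.  If `‖u‖ > B` then `‖z‖ ≤ B`, so `‖e_l(u)‖ ≤ 2^b B^l`; hence `deg r_l ≤ deg s^N`.
(4) `G = s(X_i)^N X_j^b + Σ r_l(X_i) X_j^(b-l)` is in `P` (it is `s^N χ(g) = 0` in `A_s`), its degree
in `X_i` is `N deg s`, in `X_j` it is `b`, and the coefficient at `X_i^(N deg s) X_j^b` is the leading
coefficient of `s^N`, not zero. -/
def NDStmt : Prop := ∀ (n : ℕ) (P : Ideal (MvPolynomial (Fin n) ℂ)), P.IsPrime →
  ringKrullDim (MvPolynomial (Fin n) ℂ ⧸ P) = 1 → BddPairs P → NoDouble P

end

end Pool.Agent.ZPT
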