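import Mathlib

/-!
Squad ZPT (MP_6e1a06_nt): Zilber-Pink for translates of curves in Y(1)^n.  Definitions.
-/

set_option autoImplicit false

namespace Pool.Agent.ZPT

open Polynomial

noncomputable section

/-- The j-function, written with lattice sums exactly as in the frozen statement S17349. -/
def J (τ : ℂ) : ℂ :=
  1728 * (60 * ∑' p : ℤ × ℤ, 1 / ((p.1 : ℂ) * τ + (p.2 : ℂ)) ^ 4) ^ 3 /
    ((60 * ∑' p : ℤ × ℤ, 1 / ((p.1 : ℂ) * τ + (p.2 : ℂ)) ^ 4) ^ 3 -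
      27 * (140 * ∑' p : ℤ × ℤ, 1 / ((p.1 : ℂ) * τ + (p.2 : ℂ)) ^ 6) ^ 2)

/-- The isogeny relation between complex numbers (relation R of the frozen statement S17349). -/
def Isog (x y : ℂ) : Prop :=
  ∃ τ : ℂ, 0 < τ.im ∧ ∃ a b c d : ℤ, 0 < a * d - b * c ∧
    J τ = x ∧ J (((a : ℂ) * τ + (b : ℂ)) / ((c : ℂ) * τ + (d : ℂ))) = y

/-- Strongly atypical points in the form of the frozen statement S17349: three coordinates
chained by isogenies, or two disjoint isogenous pairs. -/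
def Atyp {n : ℕ} (x : Fin n → ℂ) : Prop :=
  (∃ i j k : Fin n, i ≠ j ∧ j ≠ k ∧ i ≠ k ∧ Isog (x i) (x j) ∧ Isog (x j) (x k)) ∨
  (∃ i j k l : Fin n, i ≠ j ∧ i ≠ k ∧ i ≠ l ∧ j ≠ k ∧ j ≠ l ∧ k ≠ l ∧
    Isog (x i) (x j) ∧ Isog (x k) (x l))

/-- The zero set of an ideal. -/
def V {n : ℕ} (P : Ideal (MvPolynomial (Fin n) ℂ)) : Set (Fin n → ℂ) :=
  {x | ∀ f ∈ P, MvPolynomial.eval x f = 0}

/-- `P` is generated by polynomials with algebraic coefficients (as in S17349). -/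
def DefQbar {n : ℕ} (P : Ideal (MvPolynomial (Fin n) ℂ)) : Prop :=
  ∃ T : Set (MvPolynomial (Fin n) ℂ), P = Ideal.span T ∧
    ∀ f ∈ T, ∀ m, IsAlgebraic ℚ (MvPolynomial.coeff m f)

/-- The closure of `V P` in `(P^1)^n` has no point with `x_i = x_j = ∞`: some polynomial in `x_i`
and `x_j` only vanishes on `V P` and has a nonzero coefficient at `x_i ^ deg_i * x_j ^ deg_j`. -/
def NoDouble {n : ℕ} (P : Ideal (MvPolynomial (Fin n) ℂ)) : Prop :=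
  ∀ i j : Fin n, i ≠ j → ∃ G ∈ P, G.vars ⊆ {i, j} ∧
    MvPolynomial.coeff (Finsupp.single i (MvPolynomial.degreeOf i G) +
      Finsupp.single j (MvPolynomial.degreeOf j G)) G ≠ 0

/-- `exp (2 π i τ)`. -/
def ee (τ : ℂ) : ℂ := Complex.exp (2 * Real.pi * Complex.I * τ)

/-- Index set of the Hecke representatives `(a b; 0 d)`, `a d = m`, `0 ≤ b < d`: pairs `(a, b)`. -/
def idx (m : ℕ) : Finset (ℕ × ℕ) :=
  (m.divisors ×ˢ Finset.range m).filter fun x => x.2 < m / x.1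

/-- The point `(a τ + b) / d`. -/
def hpt (m : ℕ) (x : ℕ × ℕ) (τ : ℂ) : ℂ :=
  ((x.1 : ℂ) * τ + (x.2 : ℂ)) / ((m / x.1 : ℕ) : ℂ)

/-- `U(q) / q`, where `U` is a power series with rational coefficients, in a normed field. -/
def jv {K : Type} [NormedField K] (U : PowerSeries ℚ) (q : K) : K :=
  (∑' n : ℕ, ((PowerSeries.coeff n U : ℚ) : K) * q ^ n) / q

/-- The properties of `U = q * j`. -/
structure IsU (U : PowerSeries ℚ) : Prop where
  c0 : PowerSeries.coeff 0 U = 1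
  pint : ∀ p : ℕ, p.Prime → 5 ≤ p → ∀ n, padicNorm p (PowerSeries.coeff n U) ≤ 1
  sm : ∀ ρ : ℝ, 0 ≤ ρ → ρ < 1 → Summable fun n : ℕ => |((PowerSeries.coeff n U : ℚ) : ℝ)| * ρ ^ n
  jJ : ∀ τ : ℂ, 0 < τ.im → jv U (ee τ) = J τ

/-- Formal q-expansion of `q ^ (k m) * Σ_{(a,b,d)} j((a τ + b)/d) ^ k`: the coefficient at `q ^ N`
collects, for each `a ∣ m`, `d = m / a`, the index `n` with `d ∣ n - k` and
`a (n - k) / d + k m = N`, and its value is `d * coeff n (U ^ k)`. -/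
def hser (U : PowerSeries ℚ) (m k : ℕ) : PowerSeries ℚ :=
  ∑ a ∈ m.divisors, PowerSeries.mk fun N =>
    ∑ n ∈ Finset.range (k + m * N + 1),
      if ((m / a : ℕ) : ℤ) ∣ (n : ℤ) - k ∧
          (a : ℤ) * (((n : ℤ) - k) / ((m / a : ℕ) : ℤ)) + k * m = N then
        ((m / a : ℕ) : ℚ) * PowerSeries.coeff n (U ^ k)
      else 0

/-- Evaluation of a polynomial in two variables with rational coefficients. -/
def ev2 {K : Type} [Field K] [CharZero K] (F : ℚ[X][X]) (x y : K) : K :=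
  (F.map (Polynomial.eval₂RingHom (Rat.castHom K) x)).eval y

/-- Modular polynomials on the complex side. -/
def PsiC (Psi : ℕ → ℚ[X][X]) : Prop :=
  ∀ m : ℕ, 1 ≤ m → ∀ τ : ℂ, 0 < τ.im → ∀ y : ℂ,
    ev2 (Psi m) (J τ) y = ∏ x ∈ idx m, (y - J (hpt m x τ))

/-- The norm of `K` restricts to the `p`-adic norm of `ℚ`. -/
def Ext (p : ℕ) (K : Type) [NormedField K] [CharZero K] : Prop :=
  ∀ x : ℚ, ‖((x : ℚ) : K)‖ = ((padicNorm p x : ℚ) : ℝ)

/-- Modular polynomials in a `p`-adic field. -/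
def PsiK (U : PowerSeries ℚ) (Psi : ℕ → ℚ[X][X]) (K : Type) [NormedField K] [CharZero K] : Prop :=
  ∀ m : ℕ, 1 ≤ m → ∀ r z : K, 0 < ‖r‖ → ‖r‖ < 1 → IsPrimitiveRoot z m → ∀ y : K,
    ev2 (Psi m) (jv U (r ^ m)) y =
      ∏ x ∈ idx m, (y - jv U (z ^ (x.1 * x.2) * r ^ (x.1 ^ 2)))

/-- `x` and `y` have Tate parameters that are multiplicatively dependent. -/
def KI {K : Type} [NormedField K] (U : PowerSeries ℚ) (x y : K) : Prop :=
  ∃ q q' : K, 0 < ‖q‖ ∧ ‖q‖ < 1 ∧ 0 < ‖q'‖ ∧ ‖q'‖ < 1 ∧ jv U q = x ∧ jv U q' = y ∧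
    ∃ A B : ℕ, 1 ≤ A ∧ 1 ≤ B ∧ q ^ A = q' ^ B

/-- The subfield of algebraic numbers. -/
abbrev Qb : Type := algebraicClosure ℚ ℂ

end

end Pool.Agent.ZPT
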